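import Pool.Agent.WR2.StmtsC

/-! Squad WR2 (MP_0f3fac_nt), row SBU (helper42): upper bound of the mean values. -/

namespace Pool.Agent.WR2.H42

open Pool.Agent.WIR
open scoped BigOperators ENNReal

theorem sbu (usb : UsbStmt) (uts : UtsStmt) (int : IntStmt) (tyb : TybStmt) : SbuStmt := by
  intro n hn
  obtain ⟨C, hC⟩ := tyb
  have hs : Summable (en n) := (hC n hn).1
  have hen : ∀ l, 0 ≤ en n l := fun l => by unfold en; positivity
  have h1 : ∫⁻ x in U3, sP n x ∂μ3 ≤ ENNReal.ofReal (42 * 2 ^ n) := by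
    calc ∫⁻ x in U3, sP n x ∂μ3 ≤ ∫⁻ x, sP n x ∂μ3 :=
          MeasureTheory.setLIntegral_le_lintegral _ _
      _ = ∑' l, ENNReal.ofReal (en n l) := (int n).2.2
      _ = ENNReal.ofReal (∑' l, en n l) := (ENNReal.ofReal_tsum_of_nonneg hen hs).symm
      _ ≤ _ := ENNReal.ofReal_le_ofReal (usb n hn)
  have h2 : (2 / 3 : ℝ≥0∞) = ENNReal.ofReal (2 / 3) := by
    rw [ENNReal.ofReal_div_of_pos (by norm_num)]
    norm_num
  unfold sbar
  rw [uts.2.1, ENNReal.div_le_iff (by rw [h2]; simp) (by rw [h2]; exact ENNReal.ofReal_ne_top),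
    h2, ← ENNReal.ofReal_mul (by positivity)]
  exact h1.trans (ENNReal.ofReal_le_ofReal (le_of_eq (by ring)))

end Pool.Agent.WR2.H42
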